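import Pool.Agent.Helper54.S4.Stmts

/-! Module SLK4: ordinates with slacks. -/

set_option autoImplicit false

namespace Pool.Agent.Helper54.S4

open Finset Pool.Agent.Helper54.SP

/-- the signed slack -/
noncomputable def slk_s (j i : ℕ) (a b : ℝ) : ℝ :=
  (if pu j i then 1 else -1) * (if i = ou j then b else a)

theorem slk_gap (V : ℕ → ℝ) (n : ℕ) (h : ∀ z z', z < z' → z' ≤ n → V z < V z') :
    ∃ δ : ℝ, 0 < δ ∧ ∀ z z', z < z' → z' ≤ n → δ < V z' - V z := by
  induction n with
  | zero =>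
    refine ⟨1, one_pos, fun z z' h1 h2 => ?_⟩
    omega
  | succ n ih =>
    obtain ⟨δ, hδ, h1⟩ := ih (fun z z' h1 h2 => h z z' h1 (by omega))
    have h2 : V n < V (n + 1) := h n (n + 1) (by omega) le_rfl
    have hm : 0 < min δ (V (n + 1) - V n) := lt_min hδ (by linarith)
    refine ⟨min δ (V (n + 1) - V n) / 2, by linarith, fun z z' h3 h4 => ?_⟩
    have e1 := min_le_left δ (V (n + 1) - V n)
    have e2 := min_le_right δ (V (n + 1) - V n)
    rcases Nat.lt_or_ge z' (n + 1) with h5 | h5
    · have := h1 z z' h3 (by omega)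
      linarith
    · have h6 : z' = n + 1 := by omega
      subst h6
      have h7 : V z ≤ V n := by
        rcases Nat.lt_or_ge z n with h8 | h8
        · exact (h z n h8 (by omega)).le
        · have : z = n := by omega
          rw [this]
      linarith

theorem slk_shift (y v : ℕ → ℝ) (c : ℝ) (h : ∀ i, i < 6 → y i = v i + c) :
    FF y = FF v ∧ FG y = FG v := by
  have h0 := h 0 (by norm_num)
  have h1 := h 1 (by norm_num)
  have h2 := h 2 (by norm_num)
  have h3 := h 3 (by norm_num)
  have h4 := h 4 (by norm_num)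
  have h5 := h 5 (by norm_num)
  unfold FF FG
  rw [h0, h1, h2, h3, h4, h5]
  constructor <;> ring

theorem slk_bd (j i : ℕ) (a b d : ℝ) (ha : 0 < a) (hab : a < b) (hb : b < d) :
    -d < slk_s j i a b ∧ slk_s j i a b < d := by
  unfold slk_s
  split_ifs <;> constructor <;> linarith

theorem st_SLK4 (hSL1 : ST_SL1) (hWI : ST_WI4) (hLV : ST_LV4) (hPT : ST_PT4) : ST_SLK4 := by
  intro Γ nw V hWF hV hF
  obtain ⟨P1, P2, P3, P4, P5, P6, P7⟩ := hPT
  obtain ⟨L1, L2, L3, L4, L5, L6⟩ := hLV Γ nw hWF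
  have hW := hWI Γ nw hWF
  obtain ⟨δ, hδ, hgap⟩ := slk_gap V (2 * Γ.length + 2 + nw) hV
  set K := Γ.length with hK
  -- slacks for one rank
  have hR : ∀ (R : ℕ) (u : ℝ), ∃ a b : ℝ, 0 < u → 0 < a ∧ a < b ∧ b < u ∧
      ∀ j, j < 4 * K → rn Γ j = R →
        ((j % 2 = 1 → FF (fun i => V (wi Γ nw j i) + slk_s j i a b) <
          FG (fun i => V (wi Γ nw j i) + slk_s j i a b)) ∧
        (j % 2 = 0 → FG (fun i => V (wi Γ nw j i) + slk_s j i a b) <
          FF (fun i => V (wi Γ nw j i) + slk_s j i a b))) := by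
    intro R u
    by_cases hu : 0 < u
    swap
    · exact ⟨0, 0, fun h => absurd h hu⟩
    by_cases hj : ∃ j0, j0 < 4 * K ∧ rn Γ j0 = R
    · obtain ⟨j0, hj0, hr⟩ := hj
      obtain ⟨w1, w2, w3, w4, w5, w6, w7, w8, w9⟩ := hW j0 hj0
      have hmono : ∀ i, i < 5 → V (wi Γ nw j0 i) < V (wi Γ nw j0 (i + 1)) := by
        intro i hi
        refine hV _ _ (w1 i hi) ?_
        have hle : wi Γ nw j0 (i + 1) ≤ wi Γ nw j0 5 := by
          have q : ∀ t, t ≤ 4 - i → wi Γ nw j0 (i + 1) ≤ wi Γ nw j0 (i + 1 + t) := by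
            intro t
            induction t with
            | zero => intro _; exact le_rfl
            | succ t ih =>
              intro ht
              have h1 := ih (by omega)
              have h2 := w1 (i + 1 + t) (by omega)
              exact h1.trans h2.le
          have := q (4 - i) le_rfl
          rwa [show i + 1 + (4 - i) = 5 by omega] at this
        omega
      obtain ⟨a, b, ha, hab, hb, hj⟩ := hSL1 (fun i => V (wi Γ nw j0 i)) (j0 % 4 / 2) hmono
        (hF j0 hj0) u hu
      refine ⟨a, b, fun _ => ⟨ha, hab, hb, ?_⟩⟩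
      intro j hj1 hjr
      have h2 : j0 / 2 = j / 2 := w7 j hj1 (by rw [hr, hjr])
      obtain ⟨e1, _⟩ := w8 j h2
      have e2 : (fun i => V (wi Γ nw j i)) = (fun i => V (wi Γ nw j0 i)) := by
        funext i
        rw [e1 i]
      have e3 := hj j (by omega)
      have e4 : (fun i => V (wi Γ nw j i) + slk_s j i a b) =
          (fun i => V (wi Γ nw j0 i) +
            (if pu j i then 1 else -1) * (if i = ou j then b else a)) := by
        funext i
        rw [← e1 i]
        rfl
      rw [e4]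
      exact e3
    · exact ⟨u / 3, u / 2, fun _ => ⟨by linarith, by linarith, by linarith,
        fun j h1 h2 => absurd ⟨j, h1, h2⟩ hj⟩⟩
  choose A B hAB using hR
  let g : ℕ → ℝ := fun k => Nat.rec (δ / 2) (fun k u => A (2 * K - 1 - k) u) k
  have g0 : g 0 = δ / 2 := rfl
  have gs : ∀ k, g (k + 1) = A (2 * K - 1 - k) (g k) := fun k => rfl
  have gpos : ∀ k, 0 < g k ∧ g k ≤ δ / 2 := by
    intro k
    induction k with
    | zero => exact ⟨by rw [g0]; linarith, by rw [g0]⟩
    | succ k ih =>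
      obtain ⟨h1, h2, h3, _⟩ := hAB (2 * K - 1 - k) (g k) ih.1
      rw [gs]
      exact ⟨h1, by linarith [ih.2]⟩
  let a : ℕ → ℝ := fun R => A R (g (2 * K - 1 - R))
  let b : ℕ → ℝ := fun R => B R (g (2 * K - 1 - R))
  have hab : ∀ R, 0 < a R ∧ a R < b R ∧ b R < δ / 2 ∧ ∀ j, j < 4 * K → rn Γ j = R →
        ((j % 2 = 1 → FF (fun i => V (wi Γ nw j i) + slk_s j i (a R) (b R)) <
          FG (fun i => V (wi Γ nw j i) + slk_s j i (a R) (b R))) ∧
        (j % 2 = 0 → FG (fun i => V (wi Γ nw j i) + slk_s j i (a R) (b R)) <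
          FF (fun i => V (wi Γ nw j i) + slk_s j i (a R) (b R)))) := by
    intro R
    obtain ⟨h1, h2⟩ := gpos (2 * K - 1 - R)
    obtain ⟨h3, h4, h5, h6⟩ := hAB R (g (2 * K - 1 - R)) h1
    exact ⟨h3, h4, by linarith, h6⟩
  have hch1 : ∀ R, R + 1 < 2 * K → b R < a (R + 1) := by
    intro R hR
    obtain ⟨h1, h2⟩ := gpos (2 * K - 1 - R)
    obtain ⟨h3, h4, h5, h6⟩ := hAB R (g (2 * K - 1 - R)) h1
    have h7 : g (2 * K - 1 - R) = a (R + 1) := by
      have h8 : 2 * K - 1 - R = (2 * K - 1 - (R + 1)) + 1 := by omega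
      rw [h8, gs]
      have h9 : 2 * K - 1 - (2 * K - 1 - (R + 1)) = R + 1 := by omega
      rw [h9]
    have h10 : b R < g (2 * K - 1 - R) := h5
    rw [h7] at h10
    exact h10
  have hch : ∀ R R', R < R' → R' < 2 * K → b R < a R' := by
    intro R R' h1 h2
    obtain ⟨t, rfl⟩ : ∃ t, R' = R + 1 + t := ⟨R' - (R + 1), by omega⟩
    induction t with
    | zero => exact hch1 R h2
    | succ t ih =>
      have h3 := ih (by omega) (by omega)
      have h4 := hch1 (R + 1 + t) (by omega)
      have h5 := (hab (R + 1 + t)).2.1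
      have h6 : R + 1 + (t + 1) = R + 1 + t + 1 := by omega
      rw [h6]
      linarith
  let y : ℕ → ℝ := fun p => if p < 3 then 0 else
    V (wi Γ nw (gr p - 1) (la p)) + slk_s (gr p - 1) (la p) (a (rn Γ (gr p - 1)))
      (b (rn Γ (gr p - 1))) + (δ - V 0)
  have yge : ∀ p, 3 ≤ p → y p = V (wi Γ nw (gr p - 1) (la p)) +
      slk_s (gr p - 1) (la p) (a (rn Γ (gr p - 1))) (b (rn Γ (gr p - 1))) + (δ - V 0) := by
    intro p hp
    exact if_neg (by omega)
  have hwb : ∀ p, 3 ≤ p → p < N4 Γ → wi Γ nw (gr p - 1) (la p) ≤ 2 * K + 2 + nw := by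
    intro p hp hp2
    obtain ⟨h1, h2, h3⟩ := P2 p hp
    have h4 : gr p - 1 < 4 * K := (P3 Γ p hp).1 hp2
    obtain ⟨w1, w2, _⟩ := hW _ h4
    have q : ∀ t i, i + t = 5 → wi Γ nw (gr p - 1) i ≤ wi Γ nw (gr p - 1) 5 := by
      intro t
      induction t with
      | zero =>
        intro i hi
        have : i = 5 := by omega
        rw [this]
      | succ t ih =>
        intro i hi
        exact (w1 i (by omega)).le.trans (ih (i + 1) (by omega))
    have := q (5 - la p) (la p) (by omega)
    omega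
  refine ⟨y, ?_, ?_, ?_, ?_⟩
  · exact if_pos (by norm_num)
  · intro p q hp hq hpN hqN hlt
    rcases Nat.lt_or_ge q 3 with hq3 | hq3
    · have hq2 : q = 2 := by omega
      rw [hq2, L3] at hlt
      omega
    rcases Nat.lt_or_ge p 3 with hp3 | hp3
    · have hy : y p = 0 := if_pos hp3
      rw [hy, yge q hq3]
      have h1 := hwb q hq3 hqN
      have h2 : V 0 ≤ V (wi Γ nw (gr q - 1) (la q)) := by
        rcases Nat.eq_zero_or_pos (wi Γ nw (gr q - 1) (la q)) with h3 | h3
        · rw [h3]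
        · exact (hV 0 _ h3 h1).le
      obtain ⟨h4, h5, h6, _⟩ := hab (rn Γ (gr q - 1))
      have h7 := (slk_bd (gr q - 1) (la q) _ _ _ h4 h5 h6).1
      linarith
    · rw [yge q hq3, yge p hp3]
      obtain ⟨p4, p5, p6, _⟩ := hab (rn Γ (gr p - 1))
      have p7 := slk_bd (gr p - 1) (la p) _ _ _ p4 p5 p6
      obtain ⟨q4, q5, q6, _⟩ := hab (rn Γ (gr q - 1))
      have q7 := slk_bd (gr q - 1) (la q) _ _ _ q4 q5 q6
      rcases lt_trichotomy (wi Γ nw (gr p - 1) (la p)) (wi Γ nw (gr q - 1) (la q)) with h | h | h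
      · have := hgap _ _ h (hwb q hq3 hqN)
        linarith [p7.2, q7.1]
      · have hjp : gr p - 1 < 4 * K := (P3 Γ p hp3).1 hpN
        have hjq : gr q - 1 < 4 * K := (P3 Γ q hq3).1 hqN
        have rp := (hW _ hjp).2.2.1
        have rq := (hW _ hjq).2.2.1
        have lp : lv Γ nw p = 1 + wi Γ nw (gr p - 1) (la p) * (4 * K) +
            (if pu (gr p - 1) (la p) then 2 * K + rn Γ (gr p - 1)
              else 2 * K - 1 - rn Γ (gr p - 1)) := by
          unfold lv
          rw [if_neg (by omega), if_neg (by omega)]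
        have lq : lv Γ nw q = 1 + wi Γ nw (gr q - 1) (la q) * (4 * K) +
            (if pu (gr q - 1) (la q) then 2 * K + rn Γ (gr q - 1)
              else 2 * K - 1 - rn Γ (gr q - 1)) := by
          unfold lv
          rw [if_neg (by omega), if_neg (by omega)]
        rw [lp, lq, h] at hlt
        rw [h]
        have key : slk_s (gr p - 1) (la p) (a (rn Γ (gr p - 1))) (b (rn Γ (gr p - 1))) <
            slk_s (gr q - 1) (la q) (a (rn Γ (gr q - 1))) (b (rn Γ (gr q - 1))) := by
          unfold slk_s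
          by_cases hpp : pu (gr p - 1) (la p) = true
          · by_cases hqq : pu (gr q - 1) (la q) = true
            · rw [if_pos hpp, if_pos hqq] at hlt ⊢
              have h1 : rn Γ (gr p - 1) < rn Γ (gr q - 1) := by omega
              have h2 := hch _ _ h1 rq
              split_ifs <;> linarith
            · rw [if_pos hpp, if_neg hqq] at hlt
              omega
          · by_cases hqq : pu (gr q - 1) (la q) = true
            · rw [if_neg hpp, if_pos hqq]
              split_ifs <;> linarith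
            · rw [if_neg hpp, if_neg hqq] at hlt ⊢
              have h1 : rn Γ (gr q - 1) < rn Γ (gr p - 1) := by omega
              have h2 := hch _ _ h1 rp
              split_ifs <;> linarith
        linarith
      · have := L6 q p hq3 hp3 hqN hpN h
        omega
  · intro j hj hj2
    have h1 : ∀ i, i < 6 → (fun i => y (pt j i)) i =
        (fun i => V (wi Γ nw j i) + slk_s j i (a (rn Γ j)) (b (rn Γ j))) i + (δ - V 0) := by
      intro i hi
      obtain ⟨h2, h3, h4, h5⟩ := P1 j i hi
      have h6 := yge (pt j i) h5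
      rw [h2, h3, Nat.add_sub_cancel] at h6
      exact h6
    obtain ⟨h2, h3⟩ := slk_shift _ _ _ h1
    rw [h2, h3]
    exact ((hab (rn Γ j)).2.2.2 j hj rfl).1 hj2
  · intro j hj hj2
    have h1 : ∀ i, i < 6 → (fun i => y (pt j i)) i =
        (fun i => V (wi Γ nw j i) + slk_s j i (a (rn Γ j)) (b (rn Γ j))) i + (δ - V 0) := by
      intro i hi
      obtain ⟨h2, h3, h4, h5⟩ := P1 j i hi
      have h6 := yge (pt j i) h5
      rw [h2, h3, Nat.add_sub_cancel] at h6
      exact h6
    obtain ⟨h2, h3⟩ := slk_shift _ _ _ h1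
    rw [h2, h3]
    exact ((hab (rn Γ j)).2.2.2 j hj rfl).2 hj2

end Pool.Agent.Helper54.S4
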